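import Pool.Agent.H84.SF.Geo2

/-!
# sfc_modules, row EVS: evaluation of integral elements at a point of the surface
-/

set_option autoImplicit false

namespace Pool.Agent.H26.SF

open Pool.Agent.H84.SF
open MvPolynomial SC
open Pool.Agent.H27.LV (ge deg poleOrder canDeg)
open Pool.Agent.H92.OD (HS cf sg uu Lat geO IsO DF DD)
open Pool.Agent.H84.SM (y1 y2 Near cr dt dp)
open Pool.Agent.H3.SF (Itg Bb BB Hm eu grd hes Sfc Crd Cnn Crf Prm nv)

section

variable {k F σ : Type} [Field k] [Field F] [Algebra k F]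

/-- the homomorphism from the polynomials in `X` to the integral elements -/
noncomputable def psi (X : σ → F) (u : Fin 3 → F) (hX : ∀ i, Itg k u (X i)) :
    MvPolynomial σ k →ₐ[k] Bb k u := aeval fun i => (⟨X i, hX i⟩ : Bb k u)

lemma psi_coe (X : σ → F) (u : Fin 3 → F) (hX : ∀ i, Itg k u (X i)) (f : MvPolynomial σ k) :
    ((psi X u hX f : Bb k u) : F) = aeval X f := by
  have h : (Bb k u).val.comp (psi X u hX) = (aeval X : MvPolynomial σ k →ₐ[k] F) := by
    apply MvPolynomial.algHom_ext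
    intro i
    simp [psi]
  exact DFunLike.congr_fun h f

lemma psi_integral (X : σ → F) (u : Fin 3 → F) (hX : ∀ i, Itg k u (X i))
    (U : Fin 3 → MvPolynomial σ k) (hU : ∀ l, aeval X (U l) = u l) (a : Bb k u) :
    ((psi X u hX : MvPolynomial σ k →ₐ[k] Bb k u) : MvPolynomial σ k →+* Bb k u).IsIntegralElem
      a := by
  obtain ⟨p, hp, hr⟩ := a.2
  set θ : MvPolynomial (Fin 3) k →ₐ[k] MvPolynomial σ k := aeval U with hθ
  refine ⟨p.map (θ : MvPolynomial (Fin 3) k →+* MvPolynomial σ k), hp.map _, ?_⟩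
  rw [Polynomial.eval₂_map]
  have hinj : Function.Injective ((Bb k u).val : Bb k u →+* F) := Subtype.val_injective
  apply hinj
  rw [Polynomial.hom_eval₂, map_zero]
  have hc : (((Bb k u).val : Bb k u →+* F).comp
      (((psi X u hX : MvPolynomial σ k →ₐ[k] Bb k u) : MvPolynomial σ k →+* Bb k u).comp
        (θ : MvPolynomial (Fin 3) k →+* MvPolynomial σ k))) =
      ((aeval u : MvPolynomial (Fin 3) k →ₐ[k] F) : MvPolynomial (Fin 3) k →+* F) := by
    have h2 : ((Bb k u).val.comp (psi X u hX)).comp θ =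
        (aeval u : MvPolynomial (Fin 3) k →ₐ[k] F) := by
      apply MvPolynomial.algHom_ext
      intro l
      have h3 : ((psi X u hX (θ (MvPolynomial.X l)) : Bb k u) : F) = u l := by
        rw [psi_coe, hθ, aeval_X, hU]
      simpa using h3
    exact congrArg (fun g : MvPolynomial (Fin 3) k →ₐ[k] F =>
      (g : MvPolynomial (Fin 3) k →+* F)) h2
  rw [hc]
  exact hr

end

theorem pf_EVS : T_EVS := by
  intro k F σ _ _ _ _ _ X u dd J j0 hS s hs
  have hX := hS.Xint
  choose U hU1 hU2 using hS.ulin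
  letI alg : Algebra (MvPolynomial σ k) (Bb k u) :=
    ((psi X u hX : MvPolynomial σ k →ₐ[k] Bb k u) : MvPolynomial σ k →+* Bb k u).toAlgebra
  have halg : ∀ f, algebraMap (MvPolynomial σ k) (Bb k u) f = psi X u hX f := fun f => rfl
  haveI hint : Algebra.IsIntegral (MvPolynomial σ k) (Bb k u) :=
    ⟨fun a => psi_integral X u hX U hU2 a⟩
  set P : Ideal (MvPolynomial σ k) := RingHom.ker (eval s : MvPolynomial σ k →+* k) with hP
  have hsurj : Function.Surjective (eval s : MvPolynomial σ k →+* k) := fun c => ⟨C c, eval_C c⟩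
  haveI hPm : P.IsMaximal := RingHom.ker_isMaximal_of_surjective _ hsurj
  have hker : RingHom.ker (algebraMap (MvPolynomial σ k) (Bb k u)) ≤ P := by
    intro f hf
    rw [RingHom.mem_ker, halg] at hf
    rw [hP, RingHom.mem_ker]
    apply hs.pt
    rw [← psi_coe X u hX f, hf]
    rfl
  obtain ⟨Q, hQm, hQ⟩ := Ideal.exists_ideal_over_maximal_of_isIntegral (S := Bb k u) P hker
  have hmem : ∀ f : MvPolynomial σ k, eval s f = 0 → psi X u hX f ∈ Q := by
    intro f hf
    have : f ∈ Q.comap (algebraMap (MvPolynomial σ k) (Bb k u)) := by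
      rw [hQ, hP, RingHom.mem_ker]
      exact hf
    exact this
  have hval : ∀ f : MvPolynomial σ k, Ideal.Quotient.mk Q (psi X u hX f) =
      algebraMap k (Bb k u ⧸ Q) (eval s f) := by
    intro f
    have h1 : psi X u hX (f - C (eval s f)) ∈ Q := hmem _ (by simp)
    rw [map_sub] at h1
    have h2 : psi X u hX (C (eval s f)) = algebraMap k (Bb k u) (eval s f) := by
      rw [← MvPolynomial.algebraMap_eq]
      exact (psi X u hX).commutes _
    rw [h2] at h1
    have h3 := Ideal.Quotient.eq.2 h1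
    rw [h3]
    rfl
  haveI hfield : Q.IsMaximal := hQm
  haveI : IsDomain (Bb k u ⧸ Q) := Ideal.Quotient.isDomain Q
  haveI hint2 : Algebra.IsIntegral k (Bb k u ⧸ Q) := by
    refine ⟨fun y => ?_⟩
    obtain ⟨a, rfl⟩ := Ideal.Quotient.mk_surjective y
    obtain ⟨p, hp, hr⟩ := psi_integral X u hX U hU2 a
    refine ⟨p.map (eval s : MvPolynomial σ k →+* k), hp.map _, ?_⟩
    rw [Polynomial.eval₂_map]
    have hc : (algebraMap k (Bb k u ⧸ Q)).comp (eval s : MvPolynomial σ k →+* k) =
        (Ideal.Quotient.mk Q).comp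
          ((psi X u hX : MvPolynomial σ k →ₐ[k] Bb k u) : MvPolynomial σ k →+* Bb k u) := by
      apply RingHom.ext
      intro f
      exact (hval f).symm
    rw [hc, ← Polynomial.hom_eval₂, hr, map_zero]
  have hbij : Function.Bijective (algebraMap k (Bb k u ⧸ Q)) :=
    IsAlgClosed.algebraMap_bijective_of_isIntegral
  set e : k ≃ₐ[k] (Bb k u ⧸ Q) := AlgEquiv.ofBijective (Algebra.ofId k (Bb k u ⧸ Q)) hbij with he
  refine ⟨(e.symm : (Bb k u ⧸ Q) →ₐ[k] k).comp (Ideal.Quotient.mkₐ k Q), ?_⟩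
  intro f b hb
  have hb2 : b = psi X u hX f := by
    apply Subtype.ext
    rw [psi_coe]
    exact hb
  rw [hb2]
  change e.symm (Ideal.Quotient.mk Q (psi X u hX f)) = eval s f
  rw [hval, AlgEquiv.symm_apply_eq]
  rfl

end Pool.Agent.H26.SF
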