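import Pool.Agent.H3.SF.Targets
import Pool.Agent.H99.SQ.AsmB

/-!
# MP_634266_nt, board spw_modules, row M2 (density of the exceptional numbers, with a rate)
-/

set_option autoImplicit false

namespace Pool.Agent.H26.SF

open Finset Filter Topology Pool.Agent.H99.SQ Pool.Agent.H3.SF

/-- the number of exceptional numbers up to `y` -/
noncomputable def NE (y : ℕ) : ℝ := ({n : ℕ | n ≤ y ∧ EE n}.ncard : ℝ)

theorem P0_pos (Z b : ℕ) : 0 < P0 Z b := by
  unfold P0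
  exact pow_pos (Nat.lcmUpto_pos Z) _

theorem fin_le (y : ℕ) (p : ℕ → Prop) : {n : ℕ | n ≤ y ∧ p n}.Finite :=
  (Set.finite_Iic y).subset fun _ h => h.1

theorem cov_EE (F : Finset ℕ) (hF : ∀ p ∈ F, OP p) (n : ℕ) (ho : Odd n) (h1 : 1 < n)
    (hc : Cov F n) : EE n := by
  refine ⟨ho, h1, ?_⟩
  unfold rep
  rw [Set.ncard_eq_zero (RR_finite n), Set.eq_empty_iff_forall_notMem]
  intro l hl
  obtain ⟨p, hp, hk⟩ := hc l
  exact Pool.Agent.H14.SQ.pf_SEM.2.2.2 n l p (hF p hp) hk hl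

theorem core (hFPB : T_FPB) (hDET : T_DET) (hBAD : T_BAD) (hSML : T_SML) (hPA2 : T_PA2) :
    ∃ x₀ : ℕ, 3 ≤ x₀ ∧ ∀ x : ℕ, x₀ ≤ x → ∃ d : ℝ, ∀ y : ℕ, x ≤ y →
      |NE y - d * y| ≤ y / (4 * Real.exp (Real.sqrt (Real.log (Real.log x)))) := by
  classical
  obtain ⟨x₀, hx₀, H⟩ := hPA2
  refine ⟨x₀, hx₀, fun x hx => ?_⟩
  obtain ⟨Z, b, K, hb, hK, hKZ, hsum, hy⟩ := H x hx
  obtain ⟨e, he⟩ : ∃ e : ℝ, e = Real.exp (Real.sqrt (Real.log (Real.log x))) := ⟨_, rfl⟩
  rw [← he] at hsum hy ⊢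
  have he0 : 0 < e := by rw [he]; exact Real.exp_pos _
  obtain ⟨P, hP⟩ : ∃ P : ℕ, P = P0 Z b := ⟨_, rfl⟩
  have hP0 : 0 < P := by rw [hP]; exact P0_pos Z b
  obtain ⟨hF1, hF2, hF3, hF4, -⟩ := hFPB P hP0
  have hFO : ∀ p ∈ FP P, OP p := fun p hp => ((hF1 p).mp hp).1
  -- the periodic set
  have hper : ∀ n, (Odd (n + 2 * QQ (FP P)) ∧ Cov (FP P) (n + 2 * QQ (FP P))) ↔
      (Odd n ∧ Cov (FP P) n) := by
    intro n
    have h1 : Odd (n + 2 * QQ (FP P)) ↔ Odd n := by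
      constructor
      · rintro ⟨k, hk⟩
        by_contra hn
        rw [Nat.not_odd_iff_even] at hn
        obtain ⟨j, hj⟩ := hn
        omega
      · rintro ⟨k, hk⟩
        exact ⟨k + QQ (FP P), by omega⟩
    have h2 : Cov (FP P) (n + 2 * QQ (FP P)) ↔ Cov (FP P) n := by
      unfold Cov
      refine forall_congr' fun l => exists_congr fun p => ?_
      constructor
      · rintro ⟨hp, hk⟩
        refine ⟨hp, (Pool.Agent.H14.SQ.pf_SEM.2.1 p (n + 2 * QQ (FP P)) n l ?_).mp hk⟩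
        have : p ^ 2 ∣ 2 * QQ (FP P) := (hF4 p hp).mul_left 2
        exact (Nat.modEq_iff_dvd' (Nat.le_add_right _ _)).mpr (by simpa using this) |>.symm
      · rintro ⟨hp, hk⟩
        refine ⟨hp, (Pool.Agent.H14.SQ.pf_SEM.2.1 p (n + 2 * QQ (FP P)) n l ?_).mpr hk⟩
        have : p ^ 2 ∣ 2 * QQ (FP P) := (hF4 p hp).mul_left 2
        exact (Nat.modEq_iff_dvd' (Nat.le_add_right _ _)).mpr (by simpa using this) |>.symm
    rw [h1, h2]
  obtain ⟨d, hd⟩ := Pool.Agent.H17.SQ.PD.pf_PD (2 * QQ (FP P))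
    (fun n => Odd n ∧ Cov (FP P) n) (by omega) hper
  refine ⟨d, fun y hxy => ?_⟩
  obtain ⟨W, hW1, hc1, hc2, hc3, hc4⟩ := hy y hxy
  have hxy3 : 3 ≤ y := by omega
  rw [← hP] at hc1 hc2 hc3 hc4
  -- the sets
  obtain ⟨Cs, hCs⟩ : ∃ s : Finset ℕ, s = (range (y + 1)).filter fun n => Odd n ∧ Cov (FP P) n :=
    ⟨_, rfl⟩
  obtain ⟨Es, hEs⟩ : ∃ s : Finset ℕ, s = (range (y + 1)).filter fun n => EE n := ⟨_, rfl⟩
  have hCn : ({n : ℕ | n ≤ y ∧ (Odd n ∧ Cov (FP P) n)}.ncard : ℝ) = Cs.card := by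
    congr 1
    rw [← Set.ncard_coe_finset]
    congr 1
    ext n
    simp only [Set.mem_ofPred_eq, hCs, Finset.coe_filter, Finset.mem_range, Nat.lt_succ_iff]
  have hEn : NE y = Es.card := by
    unfold NE
    congr 1
    rw [← Set.ncard_coe_finset]
    congr 1
    ext n
    simp only [Set.mem_ofPred_eq, hEs, Finset.coe_filter, Finset.mem_range, Nat.lt_succ_iff]
  have hdy := hd y
  rw [hCn] at hdy
  rw [hEn]
  obtain ⟨A, hA⟩ : ∃ s : Finset ℕ, s = Es.filter fun n => ¬ Cov (FP P) n := ⟨_, rfl⟩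
  have hEsmem : ∀ n, n ∈ Es ↔ n ≤ y ∧ EE n := by
    intro n; rw [hEs, Finset.mem_filter, Finset.mem_range, Nat.lt_succ_iff]
  have hCsmem : ∀ n, n ∈ Cs ↔ n ≤ y ∧ Odd n ∧ Cov (FP P) n := by
    intro n; rw [hCs, Finset.mem_filter, Finset.mem_range, Nat.lt_succ_iff]
  have hAmem : ∀ n, n ∈ A ↔ (n ≤ y ∧ EE n) ∧ ¬ Cov (FP P) n := by
    intro n; rw [hA, Finset.mem_filter, hEsmem]
  have h1 : (Es.card : ℝ) ≤ Cs.card + A.card := by
    have : Es ⊆ Cs ∪ A := by
      intro n hn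
      rw [Finset.mem_union]
      by_cases hc : Cov (FP P) n
      · exact Or.inl ((hCsmem n).mpr ⟨((hEsmem n).mp hn).1, ((hEsmem n).mp hn).2.1, hc⟩)
      · exact Or.inr ((hAmem n).mpr ⟨(hEsmem n).mp hn, hc⟩)
    exact_mod_cast (Finset.card_le_card this).trans (Finset.card_union_le _ _)
  have h2 : (Cs.card : ℝ) ≤ Es.card + 1 := by
    have : Cs ⊆ insert 1 Es := by
      intro n hn
      obtain ⟨hny, ho, hc⟩ := (hCsmem n).mp hn
      rw [Finset.mem_insert]
      by_cases h1n : n = 1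
      · exact Or.inl h1n
      · refine Or.inr ((hEsmem n).mpr ⟨hny, cov_EE (FP P) hFO n ho ?_ hc⟩)
        have := ho.pos
        omega
    exact_mod_cast (Finset.card_le_card this).trans (Finset.card_insert_le _ _)
  -- bound for `A`
  obtain ⟨B, hB⟩ : ∃ s : Finset ℕ, s = A.filter fun n => (2 * Nat.log 2 n < Nat.log 2 y ∨
      ∃ l p, 2 ^ l < n ∧ p.Prime ∧ p ^ 2 ∣ n - 2 ^ l ∧ W < p) := ⟨_, rfl⟩
  have hBc : (B.card : ℝ) ≤ 4 * Real.sqrt y + (Nat.log 2 y + 1) * (y / W) := by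
    refine hSML y W B (by omega) hW1 ?_
    intro n hn
    rw [hB, Finset.mem_filter] at hn
    exact ⟨((hAmem n).mp hn.1).1.1, hn.2⟩
  have hDc : (((A \ B).card : ℕ) : ℝ) ≤
      (2 * ((Z : ℝ) / (Z : ℝ) ^ b) ^ 1 + (1 : ℕ) * (2 * (32 / Z) ^ K)) * y := by
    refine hBAD Z b y W K 1 (A \ B) hb hK hKZ ?_ ?_ ?_
    · rw [← hP, pow_one]; exact hc1
    · rw [← hP, pow_one]; exact hc3
    · intro n hn
      rw [Finset.mem_sdiff] at hn
      obtain ⟨hnA, hnB⟩ := hn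
      obtain ⟨⟨hny, ho, hn1, hrep⟩, hcov⟩ := (hAmem n).mp hnA
      have hnB' : ¬ (2 * Nat.log 2 n < Nat.log 2 y ∨
          ∃ l p, 2 ^ l < n ∧ p.Prime ∧ p ^ 2 ∣ n - 2 ^ l ∧ W < p) := by
        intro h
        exact hnB (by rw [hB, Finset.mem_filter]; exact ⟨hnA, h⟩)
      push Not at hnB'
      obtain ⟨hlog, hbig⟩ := hnB'
      refine ⟨hny, ?_⟩
      rw [← hP]
      refine hDET y n Z W 1 P ho hn1 hny (by omega) (by omega) hP0 ?_ ?_ ?_
      · intro P' hdvd hP' hle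
        have : P' ≤ P := by
          rw [pow_one] at hle
          exact Nat.le_of_mul_le_mul_right hle (by omega)
        have : P' = P := le_antisymm this (Nat.le_of_dvd hP' hdvd)
        rw [this]; exact hcov
      · intro l p hl hp hd
        exact hbig l p hl hp hd
      · rw [hrep, pow_one]
        simpa using hc2
  have hAc : (A.card : ℝ) ≤ B.card + ((A \ B).card : ℕ) := by
    have hBA : B ⊆ A := by rw [hB]; exact Finset.filter_subset _ _
    have h3 : A.card = B.card + (A \ B).card := by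
      rw [add_comm, Finset.card_sdiff_add_card_eq_card hBA]
    exact_mod_cast h3.le
  have hy0 : (0 : ℝ) ≤ y := Nat.cast_nonneg _
  have hmul := mul_le_mul_of_nonneg_right hsum hy0
  have hQ : ((2 * QQ (FP P) : ℕ) : ℝ) ≤ 2 * 2 ^ P := by exact_mod_cast Nat.mul_le_mul_left 2 hF3
  have hlast : 1 / (8 * e) * (y : ℝ) + y / (8 * e) = y / (4 * e) := by
    field_simp
    norm_num
  rw [← hlast]
  push_cast at hc4 hDc hQ hdy ⊢
  simp only [pow_one, one_mul] at hDc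
  have habs := abs_le.mp hdy
  rw [abs_le]
  constructor <;> linarith [habs.1, habs.2]

theorem NE_nonneg (y : ℕ) : 0 ≤ NE y := Nat.cast_nonneg _

theorem NE_le (y : ℕ) : NE y ≤ y + 1 := by
  unfold NE
  have h : ({n : ℕ | n ≤ y ∧ EE n}).ncard ≤ (Set.Iic y).ncard :=
    Set.ncard_le_ncard (fun n hn => hn.1) (Set.finite_Iic y)
  have h2 : (Set.Iic y).ncard = y + 1 := by
    rw [← Finset.coe_Iic, Set.ncard_coe_finset, Nat.card_Iic]
  rw [h2] at h
  exact_mod_cast h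

theorem pf_M2 (hFPB : T_FPB) (hDET : T_DET) (hBAD : T_BAD) (hSML : T_SML) (hPA2 : T_PA2) :
    T_M2 := by
  obtain ⟨x₀, hx₀, H⟩ := core hFPB hDET hBAD hSML hPA2
  obtain ⟨δ, hδ⟩ := t_TD
  have hδ' : Tendsto (fun y : ℕ => NE y / y) atTop (𝓝 δ) := hδ
  -- the function `exp (sqrt (log log x))`
  obtain ⟨E, hE⟩ : ∃ E : ℕ → ℝ, E = fun x : ℕ => Real.exp (Real.sqrt (Real.log (Real.log x))) :=
    ⟨_, rfl⟩
  have hE0 : ∀ x, 0 < E x := fun x => by rw [hE]; exact Real.exp_pos _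
  have key : ∀ x : ℕ, x₀ ≤ x → |NE x - δ * x| ≤ x / E x := by
    intro x hx
    obtain ⟨d, hd⟩ := H x hx
    have hx3 : 3 ≤ x := hx₀.trans hx
    have hdd : |δ - d| ≤ 1 / (4 * E x) := by
      have ht : Tendsto (fun y : ℕ => |NE y / y - d|) atTop (𝓝 |δ - d|) :=
        (hδ'.sub_const d).abs
      refine le_of_tendsto ht ?_
      filter_upwards [eventually_ge_atTop x] with y hy
      have hy0 : (0 : ℝ) < y := by exact_mod_cast (by omega : 0 < y)
      have h1 := hd y hy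
      have h2 : NE y / y - d = (NE y - d * y) / y := by field_simp
      rw [h2, abs_div, abs_of_pos hy0, div_le_iff₀ hy0]
      calc |NE y - d * y| ≤ y / (4 * E x) := by rw [hE]; exact h1
        _ = 1 / (4 * E x) * y := by ring
    have h1 : |NE x - d * x| ≤ x / (4 * E x) := by rw [hE]; exact hd x le_rfl
    have hx0 : (0 : ℝ) ≤ x := Nat.cast_nonneg _
    have h2 : NE x - δ * x = (NE x - d * x) - (δ - d) * x := by ring
    rw [h2]
    refine (abs_sub _ _).trans ?_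
    rw [abs_mul, abs_of_nonneg hx0]
    have h3 : |δ - d| * x ≤ 1 / (4 * E x) * x := mul_le_mul_of_nonneg_right hdd hx0
    have h4 : (x : ℝ) / (4 * E x) + 1 / (4 * E x) * x ≤ x / E x := by
      have := hE0 x
      have h5 : (x : ℝ) / (4 * E x) + 1 / (4 * E x) * x = (x / E x) / 2 := by
        field_simp; norm_num
      rw [h5]
      have : 0 ≤ (x : ℝ) / E x := by positivity
      linarith
    linarith
  refine ⟨δ, 1 + (2 + |δ|) * E x₀, fun x hx => ?_⟩
  have hx0 : (0 : ℝ) < x := by exact_mod_cast (by omega : 0 < x)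
  have hδ0 : 0 ≤ |δ| := abs_nonneg _
  have hx1 : (1 : ℝ) ≤ x := by exact_mod_cast (by omega : 1 ≤ x)
  change |NE x - δ * x| ≤ _
  have hgoal : |NE x - δ * x| ≤ (1 + (2 + |δ|) * E x₀) * x / E x := by
    rcases le_or_gt x₀ x with h | h
    · refine (key x h).trans ?_
      apply div_le_div_of_nonneg_right _ (hE0 x).le
      have : 0 ≤ (2 + |δ|) * E x₀ := mul_nonneg (by linarith) (hE0 x₀).le
      nlinarith
    · have hmono : E x ≤ E x₀ := by
        rw [hE]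
        apply Real.exp_le_exp.mpr
        apply Real.sqrt_le_sqrt
        have hx3 : (3 : ℝ) ≤ x := by exact_mod_cast hx
        have hlog : 0 < Real.log x := Real.log_pos (by linarith)
        apply Real.log_le_log hlog
        apply Real.log_le_log hx0
        exact_mod_cast h.le
      have h1 : |NE x - δ * x| ≤ (2 + |δ|) * x := by
        refine (abs_sub _ _).trans ?_
        rw [abs_mul, abs_of_nonneg (NE_nonneg x), abs_of_nonneg hx0.le]
        have := NE_le x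
        nlinarith
      refine h1.trans ?_
      rw [le_div_iff₀ (hE0 x)]
      have h2 : (2 + |δ|) * x * E x ≤ (2 + |δ|) * x * E x₀ :=
        mul_le_mul_of_nonneg_left hmono (by positivity)
      nlinarith
  rw [hE] at hgoal
  rw [hE]
  exact hgoal

end Pool.Agent.H26.SF
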