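import Pool.Agent.H84.SF.Fin
import Pool.Agent.H62.HIL.Dim2

/-!
# MP_70ba79_ag, THEOREM S, chapter 14: row MXZ: the theorem for the plane image in terms of the
coordinates of the curve
-/

set_option autoImplicit false

namespace Pool.Agent.H26.SF

open MvPolynomial SC
open Pool.Agent.H84.SF
open Pool.Agent.H27.LV (ge deg poleOrder canDeg DegreeBound)
open Pool.Agent.H84.SM (cr dt dp)
open Pool.Agent.H84.SL (pd)
open Pool.Agent.H3.SF (Itg Bb BB Hm eu grd hes Sfc Crd Crf Prm)
open Pool.Agent.H17.SD (Prj Smo HRel)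

section Aux

variable {k : Type} [Field k]

theorem mxz_scale {ι K : Type} [Field K] [Algebra k K] (P : MvPolynomial ι k)
    (e : ℕ) (hP : P.IsHomogeneous e) (c : K) (x : ι → K) :
    aeval (fun i => c * x i) P = c ^ e * aeval x P := by
  rw [aeval_def, aeval_def, eval₂_eq, eval₂_eq, Finset.mul_sum]
  refine Finset.sum_congr rfl fun m hm => ?_
  have h1 : ∑ i ∈ m.support, m i = e := by
    have h := hP (mem_support_iff.1 hm)
    rw [Finsupp.weight_apply, Finsupp.sum] at h
    simpa using h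
  rw [← h1, ← Finset.prod_pow_eq_pow_sum]
  have h2 : ∏ i ∈ m.support, (c * x i) ^ m i = (∏ i ∈ m.support, c ^ m i) *
      ∏ i ∈ m.support, x i ^ m i := by
    rw [← Finset.prod_mul_distrib]
    exact Finset.prod_congr rfl fun i _ => mul_pow _ _ _
  rw [h2]
  ring

theorem mxz_scale_zero {ι F K : Type} [Field F] [Algebra k F] [Field K] [Algebra k K]
    (X : ι → F) (hH : HRel k X) (z : ι → K)
    (hz : ∀ f : MvPolynomial ι k, aeval X f = 0 → aeval z f = 0) (c : K)
    (f : MvPolynomial ι k) (hf : aeval X f = 0) : aeval (fun i => c * z i) f = 0 := by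
  rw [← sum_homogeneousComponent f, map_sum]
  refine Finset.sum_eq_zero fun d _ => ?_
  rw [mxz_scale _ d (homogeneousComponent_isHomogeneous d f), hz _ (hH f hf d), mul_zero]

theorem mxz_ord_pow {K : Type} [Field K] [Algebra k K] (v : DV k K) (c : K) (hc : c ≠ 0)
    (n : ℕ) : v.ord (c ^ n) = n * v.ord c := by
  induction n with
  | zero =>
    have := v.ord_base 1
    simpa using this
  | succ n ih =>
    rw [pow_succ, v.ord_mul _ _ (pow_ne_zero _ hc) hc, ih]
    push_cast
    ring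

theorem mxz_ord_inv {K : Type} [Field K] [Algebra k K] (v : DV k K) (c : K) (hc : c ≠ 0) :
    v.ord c⁻¹ = - v.ord c := by
  have h1 := v.ord_mul c c⁻¹ hc (inv_ne_zero hc)
  have h2 := v.ord_base 1
  rw [mul_inv_cancel₀ hc] at h1
  rw [map_one] at h2
  omega

end Aux

theorem pf_MXZ (hMAX : T_MAX) (hPOZ : T_POZ) (hPHI : Pool.Agent.H17.SD.T_PHI) : T_MXZ := by
  classical
  intro δ j0 c0
  obtain ⟨m0, hm0⟩ := hMAX δ j0 c0
  refine ⟨m0, ?_⟩
  intro k F σ _ _ _ _ _ _ X u θ dd J c hS m GP hm hC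
  have hF : CharZero F := charZero_of_injective_algebraMap (algebraMap k F).injective
  -- the relations are homogeneous
  have hE : ∀ i, Hm k (eu u dd) 1 (X i) := fun i => by
    unfold Hm
    rw [hS.prj.Xeu i]
    push_cast
    ring
  have hH : HRel k X := by
    intro f hf d
    have h0 : ∑ i ∈ Finset.range (f.totalDegree + 1), aeval X (homogeneousComponent i f) = 0 := by
      rw [← map_sum, sum_homogeneousComponent, hf]
    by_cases hd : d ∈ Finset.range (f.totalDegree + 1)
    · exact Pool.Agent.H62.HIL.hm_sum_eq_zero (κ := k) (E := eu u dd)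
        (Finset.range (f.totalDegree + 1)) (fun i => (i : ℤ))
        (fun a _ b _ hab => by simpa using hab) (fun i => aeval X (homogeneousComponent i f))
        (fun e _ => Pool.Agent.H62.HIL.hm_aeval hE (homogeneousComponent_isHomogeneous e f)) h0 d hd
    · rw [homogeneousComponent_eq_zero, map_zero]
      simp only [Finset.mem_range] at hd
      omega
  have hspan : ∀ a : F, a ∈ Submodule.span k (Set.range X) → a ∈ Algebra.adjoin k (Set.range X) := by
    intro a ha
    exact Algebra.span_le_adjoin k (Set.range X) ha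
  have hcor : Cor X u dd J := by
    refine ⟨fun l => ⟨∑ s, C (c l s) * MvPolynomial.X s, ?_, ?_⟩, hS.prj.Xint, hS.prj.Xeu, ?_⟩
    · refine IsHomogeneous.sum _ _ _ fun s _ => ?_
      have := (isHomogeneous_C σ (c l s)).mul (isHomogeneous_X k s)
      rwa [zero_add] at this
    · rw [map_sum, hS.lin l]
      refine Finset.sum_congr rfl fun s _ => ?_
      rw [map_mul, aeval_C, aeval_X, Algebra.smul_def]
    · intro a ha
      have h1 := hS.prj.JI a ha
      refine (Algebra.adjoin_le ?_ : Pool.Agent.H17.SD.PB k u θ ≤ _) h1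
      intro b hb
      rcases hb with rfl | ⟨l, rfl⟩
      · exact hspan _ hS.prj.tlin
      · exact hspan _ (hS.prj.ulin l)
  have hsmg : SmG (k := k) X m (aeval X GP) := by
    refine ⟨GP, hC.hom, rfl, ?_⟩
    intro s hs hcone hG
    by_contra hcon
    push Not at hcon
    obtain ⟨y, hy⟩ := exists_linearIndependent_of_le_finrank (R := k) (M := Tng X s GP) (n := 3)
      (by omega)
    have hy2 : LinearIndependent k (fun i => (y i : σ → k)) :=
      hy.map' (Tng X s GP).subtype (Submodule.ker_subtype _)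
    refine hC.smo s hs hcone.pt hG (fun i => (y i : σ → k)) ?_ hy2
    intro i f hf
    rcases hf with hf | hf
    · exact (y i).2.1 f hf
    · rw [hf]
      exact (y i).2.2
  obtain ⟨B, hB⟩ := hm0 k F σ X u dd J hS.sfc hcor m (aeval X GP) hm hC.crd hsmg
  refine ⟨B, ?_⟩
  intro K _ _ _ htr D hD z S hz hJ
  have hzI : ∀ f : MvPolynomial σ k, aeval X f = 0 → aeval z f = 0 := fun f hf =>
    hz.on f (by rw [RingHom.mem_ker]; exact hf)
  obtain ⟨l0, hl0, hpo⟩ := hPOZ k F σ K X u dd c hS.sfc.du hS.prj.Xint hS.prj.Xeu hS.lin z hzI hz.one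
  have hinv : (lin c z l0)⁻¹ ≠ 0 := inv_ne_zero hl0
  -- the scaled curve
  have hz1 : ∀ f : MvPolynomial σ k, aeval X f = 0 →
      aeval (fun s => (lin c z l0)⁻¹ * z s) f = 0 :=
    fun f hf => mxz_scale_zero X hH z hzI _ f hf
  have hx : ∀ l, ∑ s, c l s • ((lin c z l0)⁻¹ * z s) = (lin c z l0)⁻¹ * lin c z l := by
    intro l
    unfold lin
    rw [Finset.mul_sum]
    refine Finset.sum_congr rfl fun s _ => ?_
    rw [mul_smul_comm]
  have hxJ : aeval (fun l => (lin c z l0)⁻¹ * lin c z l) J = (lin c z l0)⁻¹ ^ j0 * aeval (lin c z) J :=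
    mxz_scale J j0 hS.sfc.Jh _ _
  have hJ1 : aeval (fun l => ∑ s, c l s • ((lin c z l0)⁻¹ * z s)) J ≠ 0 := by
    simp only [hx]
    rw [hxJ]
    exact mul_ne_zero (pow_ne_zero _ hinv) hJ
  obtain ⟨φ, hφ⟩ := hPHI k F σ K X u θ dd J hS.sfc.ind hS.prj
    (fun s => (lin c z l0)⁻¹ * z s) hz1 c hS.lin hJ1
  have hg : aeval (fun s => (lin c z l0)⁻¹ * z s) GP = (lin c z l0)⁻¹ ^ m * aeval z GP :=
    mxz_scale GP m hC.hom _ _
  have hcrf : Crf u J m (aeval X GP) φ (fun l => (lin c z l0)⁻¹ * lin c z l)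
      ((lin c z l0)⁻¹ ^ m * aeval z GP) S := by
    refine ⟨?_, ⟨l0, inv_mul_cancel₀ hl0⟩, ?_, ?_, mul_ne_zero (pow_ne_zero _ hinv) hz.ne, ?_⟩
    · intro i b hb
      have hb2 : b = ∑ s, c i s • (⟨X s, hS.prj.Xint s⟩ : Bb k u) := by
        apply Subtype.ext
        rw [hb, hS.lin i]
        simp
      rw [hb2, map_sum, ← hx i]
      refine Finset.sum_congr rfl fun s _ => ?_
      rw [map_smul, hφ s ⟨X s, hS.prj.Xint s⟩ rfl]
    · rw [hxJ]
      exact mul_ne_zero (pow_ne_zero _ hinv) hJ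
    · intro b hb
      have hb2 : b = aeval (fun s => (⟨X s, hS.prj.Xint s⟩ : Bb k u)) GP := by
        apply Subtype.ext
        rw [hb]
        have := MvPolynomial.comp_aeval_apply (R := k) (fun s => (⟨X s, hS.prj.Xint s⟩ : Bb k u))
          (Bb k u).val GP
        exact this.symm
      rw [hb2, ← hg, MvPolynomial.comp_aeval_apply]
      congr 2
      funext s
      exact hφ s ⟨X s, hS.prj.Xint s⟩ rfl
    · intro v hv
      have h1 := hz.off v hv
      have h2 := hpo v
      rw [v.ord_mul _ _ (pow_ne_zero _ hinv) hz.ne, mxz_ord_pow v _ hinv, mxz_ord_inv v _ hl0, h1]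
      have h3 : (fun l => (lin c z l0)⁻¹ * lin c z l) = fun l => lin c z l / lin c z l0 := by
        funext l
        rw [div_eq_mul_inv, mul_comm]
      rw [h3, h2]
      ring
  obtain ⟨e, Φ, he, hΦ0, hΦh, hΦx⟩ := hB K htr D hD φ _ _ S hcrf
  refine ⟨e, Φ, he, hΦ0, hΦh, ?_⟩
  rw [mxz_scale Φ e hΦh] at hΦx
  exact (mul_eq_zero.1 hΦx).resolve_left (pow_ne_zero _ hinv)

end Pool.Agent.H26.SF
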