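import Pool.Agent.H3.SF.Targets
import Mathlib.Analysis.Complex.ExponentialBounds

/-!
# MP_634266_nt, board spw_modules, row PA2 (choice of the parameters for the rate)
-/

set_option autoImplicit false

namespace Pool.Agent.H26.SF

open Finset Filter Topology Pool.Agent.H99.SQ Pool.Agent.H3.SF

/-- `lcmUpto Z ^ (4 b)` is at most `exp (24 Z b)` -/
theorem P0_le (Z b : ℕ) : ((P0 Z b : ℕ) : ℝ) ≤ Real.exp (24 * Z * b) := by
  have hpos : (0 : ℝ) < Nat.lcmUpto Z := by exact_mod_cast Nat.lcmUpto_pos Z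
  have h1 : Real.log (Nat.lcmUpto Z) ≤ 6 * Z := by
    have h := Chebyshev.psi_eq_log_lcmUpto Z
    rw [← h]
    refine (Chebyshev.psi_le_const_mul_self (Nat.cast_nonneg Z)).trans ?_
    refine mul_le_mul_of_nonneg_right ?_ (Nat.cast_nonneg Z)
    have h4 : Real.log 4 ≤ 2 := by
      have : Real.log 4 = 2 * Real.log 2 := by
        rw [show (4 : ℝ) = 2 ^ 2 by norm_num, Real.log_pow]; norm_num
      have h2 := Real.log_two_lt_d9
      linarith
    linarith
  have h2 : (Nat.lcmUpto Z : ℝ) ≤ Real.exp (6 * Z) := by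
    rw [← Real.log_le_iff_le_exp hpos]; exact h1
  unfold P0
  push_cast
  calc (Nat.lcmUpto Z : ℝ) ^ (4 * b) ≤ (Real.exp (6 * Z)) ^ (4 * b) :=
        pow_le_pow_left₀ hpos.le h2 _
    _ = Real.exp (24 * Z * b) := by
        rw [← Real.exp_nat_mul]; congr 1; push_cast; ring

/-- the main sum -/
theorem sum_small (Z : ℕ) (hZ : 32 * Real.exp 400 ≤ Z) (u : ℝ) (hu : u ≤ 10 * (Z + 1)) :
    2 * ((Z : ℝ) / (Z : ℝ) ^ Z) + 2 * (32 / Z) ^ (Z / 32) ≤ 1 / (8 * Real.exp u) := by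
  have he : (1 : ℝ) + 400 ≤ Real.exp 400 := by
    have := Real.add_one_le_exp (400 : ℝ); linarith
  have hZ1 : (12832 : ℝ) ≤ Z := by linarith
  have hZ0 : (0 : ℝ) < Z := by linarith
  have hlogZ : (400 : ℝ) ≤ Real.log ((Z : ℝ) / 32) := by
    rw [Real.le_log_iff_exp_le (by positivity)]
    linarith
  have hlogZ' : (400 : ℝ) ≤ Real.log (Z : ℝ) := by
    rw [Real.le_log_iff_exp_le (by positivity)]
    have := Real.exp_pos 400
    linarith
  -- the target
  have h32 : (32 : ℝ) ≤ Real.exp 4 := by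
    have h := Real.exp_one_gt_d9
    have h4 : Real.exp 4 = Real.exp 1 ^ 4 := by
      rw [← Real.exp_nat_mul]; norm_num
    rw [h4]
    calc (32 : ℝ) ≤ (2.7182818283 : ℝ) ^ 4 := by norm_num
      _ ≤ Real.exp 1 ^ 4 := pow_le_pow_left₀ (by norm_num) h.le 4
  have key : ∀ t : ℝ, 10 * ((Z : ℝ) + 1) + 4 ≤ t → Real.exp (-t) ≤ 1 / (32 * Real.exp u) := by
    intro t ht
    rw [Real.exp_neg, ← one_div]
    apply one_div_le_one_div_of_le (by positivity)
    calc 32 * Real.exp u ≤ Real.exp 4 * Real.exp u :=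
          mul_le_mul_of_nonneg_right h32 (Real.exp_pos _).le
      _ = Real.exp (4 + u) := (Real.exp_add _ _).symm
      _ ≤ Real.exp t := Real.exp_le_exp.mpr (by linarith)
  have hA : (Z : ℝ) / (Z : ℝ) ^ Z ≤ 1 / (32 * Real.exp u) := by
    have h1 : (Z : ℝ) / (Z : ℝ) ^ Z = Real.exp (-(((Z : ℝ) - 1) * Real.log Z)) := by
      have hz : (Z : ℝ) = Real.exp (Real.log Z) := (Real.exp_log hZ0).symm
      have h2 : (Z : ℝ) ^ Z = Real.exp (Z * Real.log Z) := by
        rw [Real.exp_nat_mul, Real.exp_log hZ0]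
      rw [h2]
      nth_rewrite 1 [hz]
      rw [← Real.exp_sub]
      congr 1; ring
    rw [h1]
    apply key
    have : ((Z : ℝ) - 1) * 400 ≤ ((Z : ℝ) - 1) * Real.log Z :=
      mul_le_mul_of_nonneg_left hlogZ' (by linarith)
    linarith
  have hB : ((32 : ℝ) / Z) ^ (Z / 32) ≤ 1 / (32 * Real.exp u) := by
    have h1 : ((32 : ℝ) / Z) ^ (Z / 32) =
        Real.exp (-(((Z / 32 : ℕ) : ℝ) * Real.log ((Z : ℝ) / 32))) := by
      rw [← mul_neg, Real.exp_nat_mul, Real.exp_neg, Real.exp_log (by positivity), inv_div]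
    rw [h1]
    apply key
    have hfl : (Z : ℝ) ≤ 32 * ((Z / 32 : ℕ) : ℝ) + 31 := by
      have : Z ≤ 32 * (Z / 32) + 31 := by omega
      exact_mod_cast this
    have : ((Z / 32 : ℕ) : ℝ) * 400 ≤ ((Z / 32 : ℕ) : ℝ) * Real.log ((Z : ℝ) / 32) :=
      mul_le_mul_of_nonneg_left hlogZ (Nat.cast_nonneg _)
    linarith
  have h3 : 1 / (8 * Real.exp u) = 2 * (1 / (32 * Real.exp u)) + 2 * (1 / (32 * Real.exp u)) := by
    have := (Real.exp_pos u).ne'
    field_simp
    norm_num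
  rw [h3]
  linarith

/-- the binary logarithm -/
theorem natlog_bounds (y : ℕ) (hy : 4 ≤ Real.log y) :
    Real.log y ≤ Nat.log 2 y ∧ (Nat.log 2 y : ℝ) ≤ 2 * Real.log y := by
  have hy0 : y ≠ 0 := by rintro rfl; simp at hy; linarith
  have h1 : (y : ℝ) < 2 ^ (Nat.log 2 y + 1) := by
    exact_mod_cast Nat.lt_pow_succ_log_self (by norm_num) y
  have h2 : (2 : ℝ) ^ (Nat.log 2 y) ≤ y := by
    exact_mod_cast Nat.pow_log_le_self 2 hy0
  have hy0' : (0 : ℝ) < y := by exact_mod_cast Nat.pos_of_ne_zero hy0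
  have l1 := Real.log_lt_log hy0' h1
  have l2 := Real.log_le_log (by positivity) h2
  rw [Real.log_pow] at l1 l2
  push_cast at l1
  have a := Real.log_two_lt_d9
  have b := Real.log_two_gt_d9
  have hL : (0 : ℝ) ≤ Nat.log 2 y := Nat.cast_nonneg _
  constructor
  · by_contra hc
    push Not at hc
    nlinarith
  · nlinarith

/-- the conditions for `y` -/
theorem cond_y (y Z : ℕ) (u : ℝ) (hu : 5 ≤ u) (hv : u ^ 2 ≤ Real.log (Real.log y))
    (hZ : (Z : ℝ) ≤ u / 10) (hy1 : 1 < Real.log y) :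
    ∃ W : ℕ, 1 ≤ W ∧ P0 Z Z * Z * Z ≤ Nat.log 2 y ∧
    4 * (P0 Z Z * Z) ≤ Nat.log 2 y ∧ 2 ^ (P0 Z Z * Z) * W ^ (2 * (Z / 32)) ≤ y ∧
    4 * Real.sqrt y + ((Nat.log 2 y + 1 : ℕ) : ℝ) * (y / W) + 2 * (2 ^ P0 Z Z + 1) ≤
      y / (8 * Real.exp u) := by
  obtain ⟨v, hvdef⟩ : ∃ v : ℝ, v = Real.log (Real.log y) := ⟨_, rfl⟩
  obtain ⟨l, hl⟩ : ∃ l : ℝ, l = Real.log y := ⟨_, rfl⟩
  obtain ⟨w, hw⟩ : ∃ w : ℝ, w = Real.exp (v / 8) := ⟨_, rfl⟩
  rw [← hvdef] at hv
  have hl0 : 0 < l := by rw [hl]; linarith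
  have hy0 : (0 : ℝ) < y := by
    by_contra hc
    have : (y : ℝ) = 0 := le_antisymm (not_lt.mp hc) (Nat.cast_nonneg _)
    rw [this] at hy1; simp at hy1; linarith
  have hv25 : 25 ≤ v := by nlinarith
  have hw4 : 4 ≤ w := by
    have := Real.add_one_le_exp (v / 8)
    rw [hw]; linarith
  have hlw : l = w ^ 8 := by
    rw [hw, ← Real.exp_nat_mul, hl, hvdef]
    push_cast
    rw [show (8 : ℝ) * (Real.log (Real.log y) / 8) = Real.log (Real.log y) by ring,
      Real.exp_log (by linarith)]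
  have hw0 : 0 < w := by linarith
  have hlogw : Real.log w = v / 8 := by rw [hw, Real.log_exp]
  have hlogw1 : v / 8 ≤ w := by
    have := Real.add_one_le_exp (v / 8)
    rw [hw]; linarith
  -- size of `Z`
  have hu0 : 0 ≤ u := by linarith
  have huv : u ≤ v / 16 + 4 := by nlinarith [sq_nonneg (u - 8)]
  have hZw : (Z : ℝ) ≤ w := by
    have : (Z : ℝ) ≤ v / 8 := by linarith
    linarith
  -- size of `P0`
  have hP : ((P0 Z Z : ℕ) : ℝ) ≤ w ^ 2 := by
    refine (P0_le Z Z).trans ?_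
    rw [hw, ← Real.exp_nat_mul]
    apply Real.exp_le_exp.mpr
    push_cast
    have hZ0 : (0 : ℝ) ≤ Z := Nat.cast_nonneg _
    have : (Z : ℝ) * Z ≤ (u / 10) * (u / 10) := mul_le_mul hZ hZ hZ0 (by linarith)
    nlinarith
  have hL := natlog_bounds y (by
    rw [← hl, hlw]
    calc (4 : ℝ) ≤ 4 ^ 8 := by norm_num
      _ ≤ w ^ 8 := pow_le_pow_left₀ (by norm_num) hw4 8)
  rw [← hl] at hL
  obtain ⟨L, hLdef⟩ : ∃ L : ℕ, L = Nat.log 2 y := ⟨_, rfl⟩
  rw [← hLdef] at hL ⊢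
  obtain ⟨hL1, hL2⟩ := hL
  have hL1' : (1 : ℝ) ≤ L := by
    have : (1 : ℝ) ≤ w ^ 8 := one_le_pow₀ (by linarith)
    linarith [hlw]
  have hLn : 1 ≤ L := by exact_mod_cast hL1'
  have hZ0 : (0 : ℝ) ≤ Z := Nat.cast_nonneg _
  have hP0 : (0 : ℝ) ≤ ((P0 Z Z : ℕ) : ℝ) := Nat.cast_nonneg _
  have hPZ : ((P0 Z Z : ℕ) : ℝ) * Z ≤ w ^ 3 := by
    calc ((P0 Z Z : ℕ) : ℝ) * Z ≤ w ^ 2 * w := mul_le_mul hP hZw hZ0 (by positivity)
      _ = w ^ 3 := by ring
  have hw1 : 1 ≤ w := by linarith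
  have hw38 : 4 * w ^ 3 ≤ w ^ 8 := by
    have h5 : (4 : ℝ) ≤ w ^ 5 := by
      calc (4 : ℝ) ≤ 4 ^ 5 := by norm_num
        _ ≤ w ^ 5 := pow_le_pow_left₀ (by norm_num) hw4 5
    calc 4 * w ^ 3 ≤ w ^ 5 * w ^ 3 := mul_le_mul_of_nonneg_right h5 (by positivity)
      _ = w ^ 8 := by ring
  have hw48 : w ^ 4 ≤ w ^ 8 := pow_le_pow_right₀ hw1 (by norm_num)
  refine ⟨L ^ 3, Nat.one_le_pow _ _ hLn, ?_, ?_, ?_, ?_⟩
  · have : ((P0 Z Z : ℕ) : ℝ) * Z * Z ≤ L := by
      calc ((P0 Z Z : ℕ) : ℝ) * Z * Z ≤ w ^ 3 * w := mul_le_mul hPZ hZw hZ0 (by positivity)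
        _ = w ^ 4 := by ring
        _ ≤ L := by linarith
    exact_mod_cast this
  · have : 4 * (((P0 Z Z : ℕ) : ℝ) * Z) ≤ L := by linarith
    exact_mod_cast this
  · have hgoal : (2 : ℝ) ^ (P0 Z Z * Z) * ((L : ℝ) ^ 3) ^ (2 * (Z / 32)) ≤ y := by
      have h2e : (2 : ℝ) ≤ Real.exp 1 := by
        have := Real.exp_one_gt_d9; linarith
      have h1 : (2 : ℝ) ^ (P0 Z Z * Z) ≤ Real.exp (w ^ 3) := by
        calc (2 : ℝ) ^ (P0 Z Z * Z) ≤ (Real.exp 1) ^ (P0 Z Z * Z) :=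
              pow_le_pow_left₀ (by norm_num) h2e _
          _ = Real.exp (((P0 Z Z : ℕ) : ℝ) * Z) := by
              rw [← Real.exp_nat_mul]; push_cast; ring_nf
          _ ≤ Real.exp (w ^ 3) := Real.exp_le_exp.mpr hPZ
      have hLe : (L : ℝ) ≤ Real.exp (9 * w) := by
        have h3 : 2 * l ≤ Real.exp (1 + 8 * w) := by
          have hle : l = Real.exp v := by
            rw [hvdef, Real.exp_log (by linarith), hl]
          rw [hle, Real.exp_add]
          apply mul_le_mul h2e _ (Real.exp_pos _).le (Real.exp_pos _).le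
          apply Real.exp_le_exp.mpr
          linarith
        refine (hL2.trans h3).trans (Real.exp_le_exp.mpr (by linarith))
      have h4 : ((L : ℝ) ^ 3) ^ (2 * (Z / 32)) ≤ Real.exp (2 * w ^ 2) := by
        have hfl : (((Z / 32 : ℕ) : ℕ) : ℝ) ≤ w / 32 := by
          have : ((Z / 32 : ℕ) : ℝ) ≤ (Z : ℝ) / 32 := by
            have := @Nat.cast_div_le ℝ _ _ _ Z 32
            simpa using this
          linarith
        calc ((L : ℝ) ^ 3) ^ (2 * (Z / 32)) ≤ ((Real.exp (9 * w)) ^ 3) ^ (2 * (Z / 32)) := by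
              apply pow_le_pow_left₀ (by positivity)
              exact pow_le_pow_left₀ (by positivity) hLe 3
          _ = Real.exp ((54 * w) * ((Z / 32 : ℕ) : ℝ)) := by
              rw [← pow_mul, ← Real.exp_nat_mul]
              congr 1; push_cast; ring
          _ ≤ Real.exp (2 * w ^ 2) := by
              apply Real.exp_le_exp.mpr
              have := mul_le_mul_of_nonneg_left hfl (by positivity : (0 : ℝ) ≤ 54 * w)
              nlinarith
      have hsum : w ^ 3 + 2 * w ^ 2 ≤ w ^ 8 := by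
        have : 2 * w ^ 2 ≤ 3 * w ^ 3 := by
          have := mul_le_mul_of_nonneg_left hw1 (by positivity : (0 : ℝ) ≤ w ^ 2)
          nlinarith [sq_nonneg w]
        linarith
      calc (2 : ℝ) ^ (P0 Z Z * Z) * ((L : ℝ) ^ 3) ^ (2 * (Z / 32))
          ≤ Real.exp (w ^ 3) * Real.exp (2 * w ^ 2) :=
            mul_le_mul h1 h4 (by positivity) (Real.exp_pos _).le
        _ = Real.exp (w ^ 3 + 2 * w ^ 2) := (Real.exp_add _ _).symm
        _ ≤ Real.exp (w ^ 8) := Real.exp_le_exp.mpr hsum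
        _ = y := by rw [← hlw, hl, Real.exp_log hy0]
    exact_mod_cast hgoal
  · have hey : (y : ℝ) = Real.exp (w ^ 8) := by rw [← hlw, hl, Real.exp_log hy0]
    have hw7 : (10560 : ℝ) ≤ w ^ 7 := by
      calc (10560 : ℝ) ≤ 4 ^ 7 := by norm_num
        _ ≤ w ^ 7 := pow_le_pow_left₀ (by norm_num) hw4 7
    have hw8 : 10560 * w ≤ w ^ 8 := by
      calc 10560 * w ≤ w ^ 7 * w := mul_le_mul_of_nonneg_right hw7 hw0.le
        _ = w ^ 8 := by ring
    have hexpu : 8 * Real.exp u ≤ 440 * w := by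
      have h4 : Real.exp 4 ≤ 55 := by
        have h := Real.exp_one_lt_d9
        have h4 : Real.exp 4 = Real.exp 1 ^ 4 := by
          rw [← Real.exp_nat_mul]; norm_num
        rw [h4]
        calc Real.exp 1 ^ 4 ≤ (2.7182818286 : ℝ) ^ 4 :=
              pow_le_pow_left₀ (Real.exp_pos _).le h.le 4
          _ ≤ 55 := by norm_num
      have h5 : Real.exp u ≤ Real.exp 4 * w := by
        rw [hw, ← Real.exp_add]
        exact Real.exp_le_exp.mpr (by linarith)
      have h6 : Real.exp 4 * w ≤ 55 * w := mul_le_mul_of_nonneg_right h4 hw0.le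
      linarith
    have hR : (y : ℝ) / (440 * w) ≤ y / (8 * Real.exp u) :=
      div_le_div_of_nonneg_left hy0.le (by positivity) hexpu
    refine le_trans ?_ hR
    have hsplit : (y : ℝ) / (440 * w) = y / (1320 * w) + y / (1320 * w) + y / (1320 * w) := by
      field_simp; norm_num
    rw [hsplit]
    -- the three terms
    have hsq : Real.sqrt y * Real.sqrt y = y := Real.mul_self_sqrt hy0.le
    have hsqrt : 5280 * w ≤ Real.sqrt y := by
      have : Real.sqrt y = Real.exp (w ^ 8 / 2) := by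
        rw [hey, Real.exp_half]
      rw [this]
      have := Real.add_one_le_exp (w ^ 8 / 2)
      linarith
    have t1 : 4 * Real.sqrt y ≤ y / (1320 * w) := by
      rw [le_div_iff₀ (by positivity)]
      have := mul_le_mul_of_nonneg_left hsqrt (Real.sqrt_nonneg (y : ℝ))
      nlinarith
    have t2 : ((L + 1 : ℕ) : ℝ) * (y / ((L ^ 3 : ℕ) : ℝ)) ≤ y / (1320 * w) := by
      have hLpos : (0 : ℝ) < L := by linarith
      push_cast
      rw [← mul_div_assoc, div_le_div_iff₀ (by positivity) (by positivity)]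
      have hw8L : w ^ 8 ≤ L := by linarith
      have hwL : 10560 * w ≤ L := hw8.trans hw8L
      have e1 : ((L : ℝ) + 1) * (1320 * w) ≤ L ^ 3 := by
        have f1 : (L : ℝ) + 1 ≤ 2 * L := by linarith
        have f2 : 1320 * w ≤ L := by linarith
        have f3 : (2 : ℝ) ≤ L := by linarith
        calc ((L : ℝ) + 1) * (1320 * w) ≤ (2 * L) * L :=
              mul_le_mul f1 f2 (by positivity) (by positivity)
          _ ≤ (L * L) * L := by
              apply mul_le_mul_of_nonneg_right _ hLpos.le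
              exact mul_le_mul_of_nonneg_right f3 hLpos.le
          _ = L ^ 3 := by ring
      calc ((L : ℝ) + 1) * y * (1320 * w) = y * (((L : ℝ) + 1) * (1320 * w)) := by ring
        _ ≤ y * L ^ 3 := mul_le_mul_of_nonneg_left e1 hy0.le
    have t3 : 2 * ((2 : ℝ) ^ P0 Z Z + 1) ≤ y / (1320 * w) := by
      have h2e : (2 : ℝ) ≤ Real.exp 1 := by
        have := Real.exp_one_gt_d9; linarith
      have h1 : (2 : ℝ) ^ P0 Z Z ≤ Real.exp (w ^ 2) := by
        calc (2 : ℝ) ^ P0 Z Z ≤ (Real.exp 1) ^ P0 Z Z :=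
              pow_le_pow_left₀ (by norm_num) h2e _
          _ = Real.exp (((P0 Z Z : ℕ) : ℝ)) := by
              rw [← Real.exp_nat_mul]; ring_nf
          _ ≤ Real.exp (w ^ 2) := Real.exp_le_exp.mpr hP
      have h2 : 1 ≤ Real.exp (w ^ 2) := Real.one_le_exp (by positivity)
      have h3 : 2 * ((2 : ℝ) ^ P0 Z Z + 1) ≤ 4 * Real.exp (w ^ 2) := by linarith
      refine h3.trans ?_
      rw [le_div_iff₀ (by positivity)]
      have h4 : 5280 * w ≤ Real.exp (w ^ 8 - w ^ 2) := by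
        have h5 := Real.add_one_le_exp (w ^ 8 - w ^ 2)
        have h6 : 2 * w ^ 2 ≤ w ^ 8 := by
          have h7 : (2 : ℝ) ≤ w ^ 6 := by
            calc (2 : ℝ) ≤ 4 ^ 6 := by norm_num
              _ ≤ w ^ 6 := pow_le_pow_left₀ (by norm_num) hw4 6
          calc 2 * w ^ 2 ≤ w ^ 6 * w ^ 2 := mul_le_mul_of_nonneg_right h7 (by positivity)
            _ = w ^ 8 := by ring
        linarith
      have h5 : Real.exp (w ^ 8) = Real.exp (w ^ 2) * Real.exp (w ^ 8 - w ^ 2) := by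
        rw [← Real.exp_add]; congr 1; ring
      rw [hey, h5]
      have := mul_le_mul_of_nonneg_left h4 (Real.exp_pos (w ^ 2)).le
      linarith
    linarith

theorem tendsto_u :
    Tendsto (fun x : ℕ => Real.sqrt (Real.log (Real.log x))) atTop atTop :=
  Real.tendsto_sqrt_atTop.comp
    (Real.tendsto_log_atTop.comp (Real.tendsto_log_atTop.comp tendsto_natCast_atTop_atTop))

theorem pf_PA2 : T_PA2 := by
  obtain ⟨x₁, hx₁⟩ := (tendsto_atTop.mp tendsto_u (10 * (32 * Real.exp 400 + 2))).exists_forall_of_atTop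
  refine ⟨max x₁ 3, le_max_right _ _, fun x hx => ?_⟩
  have hx1 := hx₁ x ((le_max_left _ _).trans hx)
  have hx3 : 3 ≤ x := (le_max_right _ _).trans hx
  obtain ⟨u, hu⟩ : ∃ u : ℝ, u = Real.sqrt (Real.log (Real.log x)) := ⟨_, rfl⟩
  rw [← hu] at hx1 ⊢
  have he := Real.add_one_le_exp (400 : ℝ)
  have hu0 : 0 < u := by linarith
  have hll : 0 < Real.log (Real.log x) := by
    rw [hu] at hu0; exact Real.sqrt_pos.mp hu0
  have husq : u ^ 2 = Real.log (Real.log x) := by rw [hu, Real.sq_sqrt hll.le]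
  have hx0 : (0 : ℝ) < x := by exact_mod_cast (by omega : 0 < x)
  have hlx : 1 < Real.log x := by
    have h0 : 0 ≤ Real.log x := Real.log_nonneg (by exact_mod_cast (by omega : 1 ≤ x))
    exact (Real.log_pos_iff h0).mp hll
  obtain ⟨Z, hZdef⟩ : ∃ Z : ℕ, Z = ⌊u / 10⌋₊ := ⟨_, rfl⟩
  have hZ1 : (Z : ℝ) ≤ u / 10 := by rw [hZdef]; exact Nat.floor_le (by positivity)
  have hZ2 : u / 10 < Z + 1 := by rw [hZdef]; exact Nat.lt_floor_add_one _
  have hZ3 : 32 * Real.exp 400 ≤ Z := by linarith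
  have hZ4 : (12832 : ℝ) ≤ Z := by linarith
  have hZ5 : 12832 ≤ Z := by exact_mod_cast hZ4
  refine ⟨Z, Z, Z / 32, by omega, by omega, Nat.mul_div_le Z 32, sum_small Z hZ3 u (by linarith), ?_⟩
  intro y hy
  have hxy : (x : ℝ) ≤ y := by exact_mod_cast hy
  have hlxy : Real.log x ≤ Real.log y := Real.log_le_log hx0 hxy
  refine cond_y y Z u (by linarith) ?_ hZ1 (by linarith)
  rw [husq]
  exact Real.log_le_log (by linarith) hlxy

end Pool.Agent.H26.SF
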